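import Mathlib

open MeasureTheory Set

namespace Pool.Agent.Results.MP_0067de_an.SingularKernel

/-- The basic profile: `|u| ^ (-7/8) / 32` on `[-1, 1]`, zero elsewhere. -/
noncomputable def psi (u : ℝ) : ℝ := if |u| ≤ 1 then |u| ^ (-(7 / 8) : ℝ) / 32 else 0

/-- The kernel: two copies of the profile centred at `1` and at `-1`. -/
noncomputable def ker (y : ℝ) : ℝ := psi (y - 1) + psi (y + 1)

lemma psi_nonneg (u : ℝ) : 0 ≤ psi u := by
  unfold psi
  split_ifs
  · positivity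
  · exact le_rfl

lemma psi_neg (u : ℝ) : psi (-u) = psi u := by
  unfold psi
  rw [abs_neg]

lemma psi_zero_of_lt {u : ℝ} (h : 1 < |u|) : psi u = 0 := by
  unfold psi
  rw [if_neg (not_le.mpr h)]

/-- Integral of the profile over a symmetric interval. -/
lemma integral_psi_symm {ρ : ℝ} (h0 : 0 < ρ) (h1 : ρ ≤ 1) :
    ∫ u in Icc (-ρ) ρ, psi u = ρ ^ (1 / 8 : ℝ) / 2 := by
  have e1 : ∫ u in Icc (-ρ) ρ, psi u =
      ∫ u, (fun v : ℝ => (Iic ρ).indicator (fun v => v ^ (-(7 / 8) : ℝ) / 32) v) |u| := by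
    rw [← integral_indicator measurableSet_Icc]
    congr 1
    ext u
    simp only [indicator, mem_Icc, mem_Iic]
    by_cases h : |u| ≤ ρ
    · have h' := abs_le.mp h
      rw [if_pos ⟨h'.1, h'.2⟩, if_pos h]
      unfold psi
      rw [if_pos (le_trans h h1)]
    · rw [if_neg h, if_neg]
      rintro ⟨h2, h3⟩
      exact h (abs_le.mpr ⟨h2, h3⟩)
  rw [e1, integral_comp_abs (f := fun v : ℝ => (Iic ρ).indicator (fun v => v ^ (-(7 / 8) : ℝ) / 32) v)]
  have e2 : ∫ x in Ioi (0 : ℝ), (Iic ρ).indicator (fun v => v ^ (-(7 / 8) : ℝ) / 32) x =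
      ∫ x in (0 : ℝ)..ρ, x ^ (-(7 / 8) : ℝ) / 32 := by
    rw [intervalIntegral.integral_of_le h0.le, setIntegral_indicator measurableSet_Iic]
    rfl
  rw [e2, intervalIntegral.integral_div, integral_rpow (Or.inl (by norm_num))]
  rw [Real.zero_rpow (by norm_num)]
  have e3 : (-(7 / 8) : ℝ) + 1 = 1 / 8 := by norm_num
  rw [e3]
  ring

lemma measurable_psi : Measurable psi := by
  unfold psi
  apply Measurable.ite
  · exact measurableSet_le (by fun_prop) measurable_const
  · fun_prop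
  · exact measurable_const

lemma psi_eq_indicator : psi = (Icc (-1 : ℝ) 1).indicator psi := by
  ext u
  by_cases h : u ∈ Icc (-1 : ℝ) 1
  · rw [indicator_of_mem h]
  · rw [indicator_of_notMem h]
    apply psi_zero_of_lt
    by_contra hcon
    push Not at hcon
    exact h (abs_le.mp hcon)

lemma integral_psi : ∫ u, psi u = 1 / 2 := by
  rw [psi_eq_indicator, integral_indicator measurableSet_Icc, integral_psi_symm one_pos le_rfl]
  norm_num

lemma integrable_psi : Integrable psi := by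
  by_contra h
  have := integral_undef h
  rw [integral_psi] at this
  norm_num at this

/-- mass of the profile on the interval with centre `c` and radius `ρ`. -/
noncomputable def J (c ρ : ℝ) : ℝ := ∫ u in Icc (c - ρ) (c + ρ), psi u

lemma J_nonneg (c ρ : ℝ) : 0 ≤ J c ρ := integral_nonneg (fun u => psi_nonneg u)

lemma J_le_half (c ρ : ℝ) : J c ρ ≤ 1 / 2 := by
  rw [← integral_psi]
  exact setIntegral_le_integral integrable_psi (Filter.Eventually.of_forall psi_nonneg)

lemma J_zero {ρ : ℝ} (h0 : 0 < ρ) (h1 : ρ ≤ 1) : J 0 ρ = ρ ^ (1 / 8 : ℝ) / 2 := by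
  unfold J
  rw [zero_sub, zero_add, integral_psi_symm h0 h1]

lemma psi_anti {u v : ℝ} (hu : 0 < |u|) (huv : |u| ≤ |v|) : psi v ≤ psi u := by
  unfold psi
  by_cases h : |v| ≤ 1
  · rw [if_pos h, if_pos (le_trans huv h)]
    apply div_le_div_of_nonneg_right _ (by norm_num)
    exact Real.rpow_le_rpow_of_nonpos hu huv (by norm_num)
  · rw [if_neg h]
    exact psi_nonneg u

/-- Rearrangement: centred intervals carry the most mass. -/
lemma J_le_J_zero (c : ℝ) {ρ : ℝ} (h0 : 0 < ρ) : J c ρ ≤ J 0 ρ := by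
  have hm : ∀ᵐ u : ℝ, (Icc (c - ρ) (c + ρ)).indicator psi u ≤
      (Icc (c - ρ) (c + ρ)).indicator (fun _ => psi ρ) u +
        (Icc (0 - ρ) (0 + ρ)).indicator (fun u => psi u - psi ρ) u := by
    have h0' : ∀ᵐ u : ℝ, u ≠ 0 := by
      have : ({0} : Set ℝ)ᶜ ∈ ae (volume : Measure ℝ) := by
        rw [mem_ae_iff, compl_compl]
        exact Real.volume_singleton
      exact this
    filter_upwards [h0'] with u hu
    have hpos : 0 < |u| := abs_pos.mpr hu
    by_cases hE : u ∈ Icc (c - ρ) (c + ρ)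
    · rw [indicator_of_mem hE, indicator_of_mem hE]
      by_cases hS : u ∈ Icc (0 - ρ) (0 + ρ)
      · rw [indicator_of_mem hS]; linarith
      · rw [indicator_of_notMem hS, add_zero]
        rw [zero_sub, zero_add] at hS
        have : ρ ≤ |u| := by
          by_contra hcon
          push Not at hcon
          exact hS (abs_le.mp hcon.le)
        apply psi_anti (by rw [abs_of_pos h0]; exact h0)
        rw [abs_of_pos h0]; exact this
    · rw [indicator_of_notMem hE, indicator_of_notMem hE, zero_add]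
      by_cases hS : u ∈ Icc (0 - ρ) (0 + ρ)
      · rw [indicator_of_mem hS]
        rw [zero_sub, zero_add] at hS
        have := psi_anti hpos (by rw [abs_of_pos h0]; exact abs_le.mpr hS : |u| ≤ |ρ|)
        linarith
      · rw [indicator_of_notMem hS]
  have hfin : ∀ a b : ℝ, IntegrableOn (fun _ : ℝ => psi ρ) (Icc a b) volume := by
    intro a b
    exact integrableOn_const (by rw [Real.volume_Icc]; exact ENNReal.ofReal_ne_top)
  have hi1 : Integrable ((Icc (c - ρ) (c + ρ)).indicator psi) :=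
    integrable_psi.indicator measurableSet_Icc
  have hi2 : Integrable ((Icc (c - ρ) (c + ρ)).indicator (fun _ => psi ρ)) :=
    (hfin _ _).integrable_indicator measurableSet_Icc
  have hi3 : Integrable ((Icc (0 - ρ) (0 + ρ)).indicator (fun u => psi u - psi ρ)) :=
    ((integrable_psi.integrableOn).sub (hfin _ _)).integrable_indicator measurableSet_Icc
  have := integral_mono_ae hi1 (hi2.add hi3) hm
  simp only [Pi.add_apply] at this
  rw [integral_add hi2 hi3, integral_indicator measurableSet_Icc,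
    integral_indicator measurableSet_Icc, integral_indicator measurableSet_Icc,
    integral_sub integrable_psi.integrableOn (hfin _ _)] at this
  rw [setIntegral_const, setIntegral_const] at this
  have v1 : volume.real (Icc (c - ρ) (c + ρ)) = 2 * ρ := by
    rw [Real.volume_real_Icc_of_le (by linarith)]; ring
  have v2 : volume.real (Icc (0 - ρ) (0 + ρ)) = 2 * ρ := by
    rw [Real.volume_real_Icc_of_le (by linarith)]; ring
  rw [v1, v2] at this
  unfold J
  linarith

lemma J_le {c ρ : ℝ} (h0 : 0 < ρ) (h1 : ρ ≤ 1) : J c ρ ≤ ρ ^ (1 / 8 : ℝ) / 2 := by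
  rw [← J_zero h0 h1]
  exact J_le_J_zero c h0

/-- Far from the singularity the mass is proportional to the length. -/
lemma J_le_far {c ρ κ : ℝ} (h0 : 0 < ρ) (hκ0 : 0 < κ) (hκ1 : κ ≤ 1) (hc : κ + ρ ≤ |c|) :
    J c ρ ≤ ρ / (16 * κ) := by
  have hfin : ∀ a b : ℝ, IntegrableOn (fun _ : ℝ => 1 / (32 * κ)) (Icc a b) volume := by
    intro a b
    exact integrableOn_const (by rw [Real.volume_Icc]; exact ENNReal.ofReal_ne_top)
  have h2 : J c ρ ≤ ∫ u in Icc (c - ρ) (c + ρ), 1 / (32 * κ) := by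
    apply setIntegral_mono_on integrable_psi.integrableOn (hfin _ _) measurableSet_Icc
    intro u hu
    have hu' : κ ≤ |u| := by
      have h3 : |c - u| ≤ ρ := by
        rw [abs_le]; constructor <;> linarith [hu.1, hu.2]
      have h4 : |c| ≤ |c - u| + |u| := by
        calc |c| = |(c - u) + u| := by ring_nf
          _ ≤ _ := abs_add_le _ _
      linarith
    have h5 : psi u ≤ psi κ := psi_anti (by rw [abs_of_pos hκ0]; exact hκ0)
      (by rw [abs_of_pos hκ0]; exact hu')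
    refine le_trans h5 ?_
    unfold psi
    rw [abs_of_pos hκ0, if_pos hκ1]
    have h6 : κ ^ (-(7 / 8) : ℝ) ≤ κ ^ (-1 : ℝ) :=
      Real.rpow_le_rpow_of_exponent_ge hκ0 hκ1 (by norm_num)
    rw [Real.rpow_neg_one] at h6
    calc κ ^ (-(7 / 8) : ℝ) / 32 ≤ κ⁻¹ / 32 := div_le_div_of_nonneg_right h6 (by norm_num)
      _ = 1 / (32 * κ) := by
          field_simp
  refine le_trans h2 ?_
  rw [setIntegral_const, Real.volume_real_Icc_of_le (by linarith), smul_eq_mul]
  apply le_of_eq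
  field_simp
  ring

lemma J_eq_zero {c ρ : ℝ} (hc : 1 + ρ < |c|) : J c ρ = 0 := by
  unfold J
  apply setIntegral_eq_zero_of_forall_eq_zero
  intro u hu
  apply psi_zero_of_lt
  have h3 : |c - u| ≤ ρ := by
    rw [abs_le]; constructor <;> linarith [hu.1, hu.2]
  have h4 : |c| ≤ |c - u| + |u| := by
    calc |c| = |(c - u) + u| := by ring_nf
      _ ≤ _ := abs_add_le _ _
  linarith

/-! ### The kernel -/

lemma ker_nonneg (y : ℝ) : 0 ≤ ker y := add_nonneg (psi_nonneg _) (psi_nonneg _)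

lemma ker_even (y : ℝ) : ker (-y) = ker y := by
  unfold ker
  have e1 : psi (-y - 1) = psi (y + 1) := by rw [← psi_neg]; congr 1; ring
  have e2 : psi (-y + 1) = psi (y - 1) := by rw [← psi_neg]; congr 1; ring
  rw [e1, e2, add_comm]

lemma ker_support {y : ℝ} (h : 2 < |y|) : ker y = 0 := by
  unfold ker
  have h1 : 1 < |y - 1| := by
    have : |y| ≤ |y - 1| + |1| := by
      calc |y| = |(y - 1) + 1| := by ring_nf
        _ ≤ _ := abs_add_le _ _
    rw [abs_one] at this
    linarith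
  have h2 : 1 < |y + 1| := by
    have : |y| ≤ |y + 1| + |(-1 : ℝ)| := by
      calc |y| = |(y + 1) + (-1)| := by ring_nf
        _ ≤ _ := abs_add_le _ _
    rw [abs_neg, abs_one] at this
    linarith
  rw [psi_zero_of_lt h1, psi_zero_of_lt h2, add_zero]

lemma integrable_ker : Integrable ker :=
  (integrable_psi.comp_sub_right 1).add (integrable_psi.comp_add_right 1)

lemma integral_ker : ∫ y, ker y = 1 := by
  unfold ker
  rw [integral_add (integrable_psi.comp_sub_right 1) (integrable_psi.comp_add_right 1),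
    integral_sub_right_eq_self psi 1, integral_add_right_eq_self psi 1, integral_psi]
  norm_num

/-! ### The maximal operator and the test functions -/

/-- The maximal operator of convolution type attached to `φ`:
the supremum over `t > 0` of `(φ_t * |f|)(x)`, where `φ_t(y) = t⁻¹ φ(y / t)`. -/
noncomputable def maxConv (φ : ℝ → ℝ) (f : ℝ → ℝ) (x : ℝ) : ℝ :=
  ⨆ t : {t : ℝ // 0 < t}, ∫ y, ((t : ℝ)⁻¹ * φ ((x - y) / (t : ℝ))) * |f y|

/-- Sanity check: for a kernel `φ` and a bounded function `f` (in particular for every function of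
bounded variation) the supremum defining `maxConv φ f x` is over a set bounded above, so that the
real supremum is the true one. -/
lemma maxConv_bddAbove {φ f : ℝ → ℝ} (hφ : ∀ y, 0 ≤ φ y) (hint : Integrable φ)
    (hone : ∫ y, φ y = 1) {B : ℝ} (hB : ∀ y, |f y| ≤ B) (x : ℝ) :
    BddAbove (range fun t : {t : ℝ // 0 < t} =>
      ∫ y, ((t : ℝ)⁻¹ * φ ((x - y) / (t : ℝ))) * |f y|) := by
  refine ⟨B, ?_⟩
  rintro _ ⟨⟨t, ht⟩, rfl⟩
  show ∫ y, (t⁻¹ * φ ((x - y) / t)) * |f y| ≤ B
  have hi : Integrable (fun y => t⁻¹ * φ ((x - y) / t)) := by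
    apply Integrable.const_mul
    have h1 : Integrable (fun y => φ (y / t)) := hint.comp_div ht.ne'
    exact h1.comp_sub_left x
  have hval : ∫ y, t⁻¹ * φ ((x - y) / t) = 1 := by
    rw [integral_const_mul, integral_sub_left_eq_self (fun z => φ (z / t)) volume x,
      Measure.integral_comp_div, hone, abs_of_pos ht, smul_eq_mul, mul_one,
      inv_mul_cancel₀ ht.ne']
  calc ∫ y, (t⁻¹ * φ ((x - y) / t)) * |f y| ≤ ∫ y, (t⁻¹ * φ ((x - y) / t)) * B := by
        apply integral_mono_of_nonneg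
        · exact Filter.Eventually.of_forall (fun y =>
            mul_nonneg (mul_nonneg (inv_nonneg.mpr ht.le) (hφ _)) (abs_nonneg _))
        · exact hi.mul_const B
        · exact Filter.Eventually.of_forall (fun y =>
            mul_le_mul_of_nonneg_left (hB y) (mul_nonneg (inv_nonneg.mpr ht.le) (hφ _)))
    _ = B := by rw [integral_mul_const, hval, one_mul]

/-- The test function: the sum of the indicators of the intervals `[p - δ, p + δ]`, `p ∈ P`. -/
noncomputable def comb (P : Finset ℤ) (δ : ℝ) (y : ℝ) : ℝ :=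
  ∑ p ∈ P, (Icc ((p : ℝ) - δ) ((p : ℝ) + δ)).indicator (fun _ => (1 : ℝ)) y

lemma comb_nonneg (P : Finset ℤ) (δ y : ℝ) : 0 ≤ comb P δ y := by
  unfold comb
  apply Finset.sum_nonneg
  intro p _
  exact indicator_nonneg (fun _ _ => zero_le_one) _

lemma J_eq_interval {c ρ : ℝ} (h : 0 < ρ) : J c ρ = ∫ u in (c - ρ)..(c + ρ), psi u := by
  unfold J
  rw [intervalIntegral.integral_of_le (by linarith), integral_Icc_eq_integral_Ioc]

lemma one_bump {t δ : ℝ} (ht : 0 < t) (hδ : 0 < δ) (x p : ℝ) :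
    ∫ y in Icc (p - δ) (p + δ), t⁻¹ * ker ((x - y) / t) =
      J ((x - p) / t - 1) (δ / t) + J ((x - p) / t + 1) (δ / t) := by
  have hρ : 0 < δ / t := div_pos hδ ht
  rw [J_eq_interval hρ, J_eq_interval hρ, integral_Icc_eq_integral_Ioc,
    ← intervalIntegral.integral_of_le (by linarith)]
  have e1 : ∀ y : ℝ, t⁻¹ * ker ((x - y) / t) = t⁻¹ * ker (x / t - y / t) := by
    intro y; rw [sub_div]
  simp_rw [e1]
  rw [intervalIntegral.integral_const_mul,
    intervalIntegral.integral_comp_sub_div (fun z => ker z) ht.ne' (x / t), smul_eq_mul,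
    ← mul_assoc, inv_mul_cancel₀ ht.ne', one_mul]
  unfold ker
  rw [intervalIntegral.integral_add
    ((integrable_psi.comp_sub_right 1).intervalIntegrable)
    ((integrable_psi.comp_add_right 1).intervalIntegrable),
    intervalIntegral.integral_comp_sub_right (fun z => psi z) 1,
    intervalIntegral.integral_comp_add_right (fun z => psi z) 1]
  have a1 : x / t - (p + δ) / t - 1 = (x - p) / t - 1 - δ / t := by field_simp; ring
  have a2 : x / t - (p - δ) / t - 1 = (x - p) / t - 1 + δ / t := by field_simp; ring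
  have a3 : x / t - (p + δ) / t + 1 = (x - p) / t + 1 - δ / t := by field_simp; ring
  have a4 : x / t - (p - δ) / t + 1 = (x - p) / t + 1 + δ / t := by field_simp; ring
  rw [a1, a2, a3, a4]

lemma integrable_scaled {t : ℝ} (ht : 0 < t) (x : ℝ) :
    Integrable (fun y => t⁻¹ * ker ((x - y) / t)) := by
  apply Integrable.const_mul
  have h1 : Integrable (fun y => ker (y / t)) := integrable_ker.comp_div ht.ne'
  exact h1.comp_sub_left x

/-- The convolution of the rescaled kernel with the test function. -/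
lemma conv_formula {t δ : ℝ} (ht : 0 < t) (hδ : 0 < δ) (P : Finset ℤ) (x : ℝ) :
    ∫ y, (t⁻¹ * ker ((x - y) / t)) * |comb P δ y| =
      ∑ p ∈ P, (J ((x - p) / t - 1) (δ / t) + J ((x - p) / t + 1) (δ / t)) := by
  have e1 : ∀ y, (t⁻¹ * ker ((x - y) / t)) * |comb P δ y| =
      ∑ p ∈ P, (Icc ((p : ℝ) - δ) ((p : ℝ) + δ)).indicator
        (fun y => t⁻¹ * ker ((x - y) / t)) y := by
    intro y
    rw [abs_of_nonneg (comb_nonneg P δ y)]
    unfold comb
    rw [Finset.mul_sum]
    apply Finset.sum_congr rfl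
    intro p _
    by_cases h : y ∈ Icc ((p : ℝ) - δ) ((p : ℝ) + δ)
    · rw [indicator_of_mem h, indicator_of_mem h, mul_one]
    · rw [indicator_of_notMem h, indicator_of_notMem h, mul_zero]
  simp_rw [e1]
  rw [integral_finsetSum]
  · apply Finset.sum_congr rfl
    intro p _
    rw [integral_indicator measurableSet_Icc, one_bump ht hδ]
  · intro p _
    exact (integrable_scaled ht x).indicator measurableSet_Icc

lemma conv_le_card {t δ : ℝ} (ht : 0 < t) (hδ : 0 < δ) (P : Finset ℤ) (x : ℝ) :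
    ∫ y, (t⁻¹ * ker ((x - y) / t)) * |comb P δ y| ≤ P.card := by
  rw [conv_formula ht hδ]
  calc ∑ p ∈ P, (J ((x - p) / t - 1) (δ / t) + J ((x - p) / t + 1) (δ / t))
      ≤ ∑ p ∈ P, (1 : ℝ) := by
        apply Finset.sum_le_sum
        intro p _
        have := J_le_half ((x - p) / t - 1) (δ / t)
        have := J_le_half ((x - p) / t + 1) (δ / t)
        linarith
    _ = P.card := by simp

lemma bddAbove_conv {δ : ℝ} (hδ : 0 < δ) (P : Finset ℤ) (x : ℝ) :
    BddAbove (range fun t : {t : ℝ // 0 < t} =>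
      ∫ y, ((t : ℝ)⁻¹ * ker ((x - y) / (t : ℝ))) * |comb P δ y|) := by
  refine ⟨P.card, ?_⟩
  rintro _ ⟨t, rfl⟩
  exact conv_le_card t.2 hδ P x

/-- Lower bound at the centres: two points of `P` symmetric about `x`. -/
lemma lower_bound {δ : ℝ} (hδ : 0 < δ) (P : Finset ℤ) {x : ℝ} {a b : ℤ} (ha : a ∈ P) (hb : b ∈ P)
    (hab : a < b) (hx : 2 * x = a + b) (hsmall : δ ≤ (b - a) / 2) :
    (δ / ((b - a) / 2)) ^ (1 / 8 : ℝ) ≤ maxConv ker (comb P δ) x := by
  have habr : (a : ℝ) < b := by exact_mod_cast hab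
  set t : ℝ := (b - a) / 2 with htdef
  have ht : 0 < t := by rw [htdef]; linarith
  have hρ : 0 < δ / t := div_pos hδ ht
  have hρ1 : δ / t ≤ 1 := by rw [div_le_one ht]; exact hsmall
  refine le_trans ?_ (le_ciSup (bddAbove_conv hδ P x) ⟨t, ht⟩)
  show (δ / t) ^ (1 / 8 : ℝ) ≤ ∫ y, (t⁻¹ * ker ((x - y) / t)) * |comb P δ y|
  rw [conv_formula ht hδ]
  have hterm : ∀ p ∈ P, 0 ≤ (J ((x - p) / t - 1) (δ / t) + J ((x - p) / t + 1) (δ / t)) :=
    fun p _ => add_nonneg (J_nonneg _ _) (J_nonneg _ _)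
  have hsub : ({a, b} : Finset ℤ) ⊆ P := by
    intro z hz
    rw [Finset.mem_insert, Finset.mem_singleton] at hz
    rcases hz with rfl | rfl <;> assumption
  refine le_trans ?_ (Finset.sum_le_sum_of_subset_of_nonneg hsub (fun p hp _ => hterm p hp))
  rw [Finset.sum_pair hab.ne]
  have ea : (x - a) / t - 1 = 0 := by
    have : x - a = t := by rw [htdef]; linarith
    rw [this, div_self ht.ne', sub_self]
  have eb : (x - b) / t + 1 = 0 := by
    have : x - b = -t := by rw [htdef]; linarith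
    rw [this, neg_div, div_self ht.ne']; ring
  rw [ea, eb, J_zero hρ hρ1]
  have h1 := J_nonneg ((x - a) / t + 1) (δ / t)
  have h2 := J_nonneg ((x - b) / t - 1) (δ / t)
  linarith

lemma sum_le_of_unique_bad {ι : Type*} [DecidableEq ι] (Q : Finset ι) (y : ι → ℝ)
    (bad : ι → Prop) {M b : ℝ} (hM : 0 ≤ M) (hb : 0 ≤ b) (h1 : ∀ q ∈ Q, y q ≤ M)
    (h2 : ∀ q ∈ Q, ¬ bad q → y q ≤ b)
    (h3 : ∀ q ∈ Q, ∀ q' ∈ Q, bad q → bad q' → q = q') :
    ∑ q ∈ Q, y q ≤ M + Q.card * b := by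
  by_cases h : ∃ q ∈ Q, bad q
  · obtain ⟨q₀, hq₀, hbad⟩ := h
    rw [← Finset.add_sum_erase Q y hq₀]
    have h4 : ∑ q ∈ Q.erase q₀, y q ≤ ∑ q ∈ Q.erase q₀, b := by
      apply Finset.sum_le_sum
      intro q hq
      rw [Finset.mem_erase] at hq
      exact h2 q hq.2 (fun hb' => hq.1 (h3 q hq.2 q₀ hq₀ hb' hbad))
    rw [Finset.sum_const, nsmul_eq_mul] at h4
    have h5 : ((Q.erase q₀).card : ℝ) ≤ Q.card := by
      exact_mod_cast Finset.card_le_card (Finset.erase_subset _ _)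
    have h6 := mul_le_mul_of_nonneg_right h5 hb
    have h7 := h1 q₀ hq₀
    linarith
  · push Not at h
    have h4 : ∑ q ∈ Q, y q ≤ ∑ q ∈ Q, b := by
      apply Finset.sum_le_sum
      intro q hq
      exact h2 q hq (h q hq)
    rw [Finset.sum_const, nsmul_eq_mul] at h4
    linarith

/-- Upper bound at the points `x` for which `2 x` is a half-integer. Here `S` is a scale
with `4 S ≤ |x - p| ≤ 6 S` for all `p ∈ P`. -/
lemma upper_bound {δ S : ℝ} (hδ : 0 < δ) (hδ1 : δ ≤ 1 / 100) (hS : 4 ≤ S) (P : Finset ℤ) {x : ℝ}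
    {m : ℤ} (hx : 2 * x = m + 1 / 2)
    (hlow : ∀ p ∈ P, 4 * S ≤ |x - p|) (hupp : ∀ p ∈ P, |x - p| ≤ 6 * S) :
    maxConv ker (comb P δ) x ≤ (δ / S) ^ (1 / 8 : ℝ) / 2 + (2 * P.card) * (7 * δ) := by
  have hSpos : 0 < S := by linarith
  have hR : 0 ≤ (δ / S) ^ (1 / 8 : ℝ) / 2 + (2 * P.card) * (7 * δ) := by positivity
  have : Nonempty {t : ℝ // 0 < t} := ⟨⟨1, one_pos⟩⟩
  apply ciSup_le
  rintro ⟨t, ht⟩
  show ∫ y, (t⁻¹ * ker ((x - y) / t)) * |comb P δ y| ≤ _
  rw [conv_formula ht hδ]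
  rcases le_or_gt t S with htS | htS
  · -- small t: everything vanishes
    refine le_trans (le_of_eq ?_) hR
    apply Finset.sum_eq_zero
    intro p hp
    have h4 : 2 + δ / t < |(x - p) / t| := by
      rw [abs_div, abs_of_pos ht, lt_div_iff₀ ht]
      have h5 := hlow p hp
      have : (2 + δ / t) * t = 2 * t + δ := by field_simp
      rw [this]
      linarith
    have h5 : 1 + δ / t < |(x - p) / t - 1| := by
      have : |(x - p) / t| ≤ |(x - p) / t - 1| + |(1 : ℝ)| := by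
        calc |(x - p) / t| = |((x - p) / t - 1) + 1| := by ring_nf
          _ ≤ _ := abs_add_le _ _
      rw [abs_one] at this
      linarith
    have h6 : 1 + δ / t < |(x - p) / t + 1| := by
      have : |(x - p) / t| ≤ |(x - p) / t + 1| + |(-1 : ℝ)| := by
        calc |(x - p) / t| = |((x - p) / t + 1) + (-1)| := by ring_nf
          _ ≤ _ := abs_add_le _ _
      rw [abs_neg, abs_one] at this
      linarith
    rw [J_eq_zero h5, J_eq_zero h6, add_zero]
  · -- large t
    have hρ : 0 < δ / t := div_pos hδ ht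
    have hρS : δ / t ≤ δ / S := div_le_div_of_nonneg_left hδ.le hSpos htS.le
    have hρ1 : δ / t ≤ 1 := by
      rw [div_le_one ht]; linarith
    set κ : ℝ := 1 / (100 * S) with hκ
    have hκ0 : 0 < κ := by positivity
    have hκ1 : κ ≤ 1 := by
      rw [hκ, div_le_one (by positivity)]; linarith
    set Q : Finset (ℤ × ℤ) := P ×ˢ ({1, -1} : Finset ℤ) with hQ
    have hcard : (Q.card : ℝ) = 2 * P.card := by
      rw [hQ, Finset.card_product]
      have : ({1, -1} : Finset ℤ).card = 2 := rfl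
      rw [this]
      push_cast
      ring
    have hsum : ∑ p ∈ P, (J ((x - p) / t - 1) (δ / t) + J ((x - p) / t + 1) (δ / t)) =
        ∑ q ∈ Q, J ((x - q.1) / t - q.2) (δ / t) := by
      rw [hQ, Finset.sum_product]
      apply Finset.sum_congr rfl
      intro p _
      rw [Finset.sum_pair (by norm_num)]
      push_cast
      rw [sub_neg_eq_add]
    rw [hsum, ← hcard]
    have hbadimp : ∀ q ∈ Q, |(x - q.1) / t - q.2| < κ + δ / t → |x - q.1 - q.2 * t| < 8 / 100 := by
      intro q hq hb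
      rw [hQ, Finset.mem_product] at hq
      have h1 := hupp q.1 hq.1
      have hs : |(q.2 : ℝ)| = 1 := by
        have := hq.2
        rw [Finset.mem_insert, Finset.mem_singleton] at this
        rcases this with h | h <;> rw [h] <;> simp
      have h2 : |x - q.1 - q.2 * t| < κ * t + δ := by
        have e : x - q.1 - q.2 * t = ((x - q.1) / t - q.2) * t := by field_simp
        rw [e, abs_mul, abs_of_pos ht]
        calc |(x - q.1) / t - q.2| * t < (κ + δ / t) * t := mul_lt_mul_of_pos_right hb ht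
          _ = κ * t + δ := by field_simp
      have h3 : t ≤ |x - q.1| + |x - q.1 - q.2 * t| := by
        have e : t = |(q.2 : ℝ) * t| := by rw [abs_mul, hs, one_mul, abs_of_pos ht]
        calc t = |(q.2 : ℝ) * t| := e
          _ = |(x - q.1) - (x - q.1 - q.2 * t)| := by ring_nf
          _ ≤ _ := abs_sub _ _
      have hκt : κ * t = t / (100 * S) := by rw [hκ]; ring
      have hκt2 : κ * t ≤ t / 400 := by
        rw [hκt]
        apply div_le_div_of_nonneg_left ht.le (by norm_num)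
        linarith
      have h4 : t ≤ 7 * S := by linarith
      have h5 : κ * t ≤ 7 / 100 := by
        rw [hκt, div_le_div_iff₀ (by positivity) (by norm_num)]
        linarith
      linarith
    apply sum_le_of_unique_bad Q (fun q => J ((x - q.1) / t - q.2) (δ / t))
      (fun q => |(x - q.1) / t - q.2| < κ + δ / t)
    · positivity
    · positivity
    · intro q _
      refine le_trans (J_le hρ hρ1) ?_
      apply div_le_div_of_nonneg_right _ (by norm_num)
      exact Real.rpow_le_rpow hρ.le hρS (by norm_num)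
    · intro q _ hb
      push Not at hb
      refine le_trans (J_le_far hρ hκ0 hκ1 hb) ?_
      have : δ / t / (16 * κ) = (δ / t) * (100 * S / 16) := by
        rw [hκ]; field_simp
      rw [this]
      calc (δ / t) * (100 * S / 16) ≤ (δ / S) * (100 * S / 16) :=
            mul_le_mul_of_nonneg_right hρS (by positivity)
        _ = 100 / 16 * δ := by field_simp
        _ ≤ 7 * δ := by linarith
    · intro q hq q' hq' hb hb'
      have h1 := hbadimp q hq hb
      have h2 := hbadimp q' hq' hb'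
      rw [hQ, Finset.mem_product, Finset.mem_insert, Finset.mem_singleton] at hq hq'
      rw [abs_lt] at h1 h2
      have key : q.2 = q'.2 → q = q' := by
        intro hs
        have h3 : |((q.1 - q'.1 : ℤ) : ℝ)| < 1 := by
          rw [hs] at h1
          push_cast
          rw [abs_lt]
          constructor <;> linarith [h1.1, h1.2, h2.1, h2.2]
        have h4 : |q.1 - q'.1| < 1 := by exact_mod_cast h3
        have h5 : q.1 - q'.1 = 0 := Int.abs_lt_one_iff.mp h4
        exact Prod.ext (by omega) hs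
      have opp : q.2 = 1 → q'.2 = -1 → False := by
        intro e1 e2
        rw [e1] at h1
        rw [e2] at h2
        push_cast at h1 h2
        have h3 : |(2 * x - (q.1 + q'.1 : ℤ) : ℝ)| < 1 / 2 := by
          push_cast
          rw [abs_lt]
          constructor <;> linarith [h1.1, h1.2, h2.1, h2.2]
        rw [hx] at h3
        rw [abs_lt] at h3
        have h4 : (-1 : ℝ) < ((m - (q.1 + q'.1) : ℤ) : ℝ) := by push_cast at h3 ⊢; linarith [h3.1]
        have h5 : ((m - (q.1 + q'.1) : ℤ) : ℝ) < 0 := by push_cast at h3 ⊢; linarith [h3.2]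
        have h6 : (-1 : ℤ) < m - (q.1 + q'.1) := by exact_mod_cast h4
        have h7 : m - (q.1 + q'.1) < (0 : ℤ) := by exact_mod_cast h5
        omega
      have opp' : q'.2 = 1 → q.2 = -1 → False := by
        intro e1 e2
        rw [e1] at h2
        rw [e2] at h1
        push_cast at h1 h2
        have h3 : |(2 * x - (q.1 + q'.1 : ℤ) : ℝ)| < 1 / 2 := by
          push_cast
          rw [abs_lt]
          constructor <;> linarith [h1.1, h1.2, h2.1, h2.2]
        rw [hx] at h3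
        rw [abs_lt] at h3
        have h4 : (-1 : ℝ) < ((m - (q.1 + q'.1) : ℤ) : ℝ) := by push_cast at h3 ⊢; linarith [h3.1]
        have h5 : ((m - (q.1 + q'.1) : ℤ) : ℝ) < 0 := by push_cast at h3 ⊢; linarith [h3.2]
        have h6 : (-1 : ℤ) < m - (q.1 + q'.1) := by exact_mod_cast h4
        have h7 : m - (q.1 + q'.1) < (0 : ℤ) := by exact_mod_cast h5
        omega
      rcases hq.2 with e1 | e1 <;> rcases hq'.2 with e2 | e2
      · exact key (e1.trans e2.symm)
      · exact (opp e1 e2).elim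
      · exact (opp' e2 e1).elim
      · exact key (e1.trans e2.symm)

/-! ### Variation of the test function -/

lemma indicator_step {a b : ℝ} (hab : a ≤ b) {x y : ℝ} (hxy : x ≤ y) :
    |(Icc a b).indicator (fun _ => (1 : ℝ)) y - (Icc a b).indicator (fun _ => (1 : ℝ)) x| ≤
      ((if a ≤ y then (1 : ℝ) else 0) + (if b < y then (1 : ℝ) else 0)) -
      ((if a ≤ x then (1 : ℝ) else 0) + (if b < x then (1 : ℝ) else 0)) := by
  have key : ∀ z : ℝ, (Icc a b).indicator (fun _ => (1 : ℝ)) z =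
      (if a ≤ z then (1 : ℝ) else 0) - (if b < z then (1 : ℝ) else 0) := by
    intro z
    simp only [indicator, mem_Icc]
    by_cases h1 : a ≤ z
    · by_cases h2 : b < z
      · rw [if_neg (by rintro ⟨_, h⟩; linarith), if_pos h1, if_pos h2]; norm_num
      · rw [if_pos ⟨h1, not_lt.mp h2⟩, if_pos h1, if_neg h2]; norm_num
    · rw [if_neg (by rintro ⟨h, _⟩; exact h1 h), if_neg h1, if_neg (by intro h; linarith)]
      norm_num
  have m1 : (if a ≤ x then (1 : ℝ) else 0) ≤ (if a ≤ y then (1 : ℝ) else 0) := by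
    by_cases h1 : a ≤ x
    · rw [if_pos h1, if_pos (le_trans h1 hxy)]
    · rw [if_neg h1]; split_ifs <;> norm_num
  have m2 : (if b < x then (1 : ℝ) else 0) ≤ (if b < y then (1 : ℝ) else 0) := by
    by_cases h1 : b < x
    · rw [if_pos h1, if_pos (lt_of_lt_of_le h1 hxy)]
    · rw [if_neg h1]; split_ifs <;> norm_num
  rw [key, key, abs_le]
  constructor <;> linarith

lemma indicator_var {a b : ℝ} (hab : a ≤ b) {u : ℕ → ℝ} (hu : Monotone u) (n : ℕ) :
    ∑ i ∈ Finset.range n, |(Icc a b).indicator (fun _ => (1 : ℝ)) (u (i + 1)) -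
      (Icc a b).indicator (fun _ => (1 : ℝ)) (u i)| ≤ 2 := by
  set h : ℕ → ℝ := fun i => (if a ≤ u i then (1 : ℝ) else 0) + (if b < u i then (1 : ℝ) else 0)
    with hh
  have hn : h n ≤ 2 := by
    rw [hh]
    show (if a ≤ u n then (1 : ℝ) else 0) + (if b < u n then (1 : ℝ) else 0) ≤ 2
    split_ifs <;> norm_num
  have h0 : 0 ≤ h 0 := by
    rw [hh]
    show 0 ≤ (if a ≤ u 0 then (1 : ℝ) else 0) + (if b < u 0 then (1 : ℝ) else 0)
    split_ifs <;> norm_num
  calc ∑ i ∈ Finset.range n, |(Icc a b).indicator (fun _ => (1 : ℝ)) (u (i + 1)) -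
      (Icc a b).indicator (fun _ => (1 : ℝ)) (u i)|
      ≤ ∑ i ∈ Finset.range n, (h (i + 1) - h i) := by
        apply Finset.sum_le_sum
        intro i _
        exact indicator_step hab (hu (Nat.le_succ i))
    _ = h n - h 0 := Finset.sum_range_sub h n
    _ ≤ 2 := by linarith

lemma comb_var (P : Finset ℤ) {δ : ℝ} (hδ : 0 < δ) :
    eVariationOn (comb P δ) univ ≤ ENNReal.ofReal (2 * P.card) := by
  unfold eVariationOn
  apply iSup_le
  rintro ⟨n, u, hu, _⟩
  show ∑ i ∈ Finset.range n, edist (comb P δ (u (i + 1))) (comb P δ (u i)) ≤ _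
  have e : ∀ i, edist (comb P δ (u (i + 1))) (comb P δ (u i)) =
      ENNReal.ofReal |comb P δ (u (i + 1)) - comb P δ (u i)| := by
    intro i
    rw [edist_dist, Real.dist_eq]
  simp_rw [e]
  rw [← ENNReal.ofReal_sum_of_nonneg (fun i _ => abs_nonneg _)]
  apply ENNReal.ofReal_le_ofReal
  calc ∑ i ∈ Finset.range n, |comb P δ (u (i + 1)) - comb P δ (u i)|
      ≤ ∑ i ∈ Finset.range n, ∑ p ∈ P,
        |(Icc ((p : ℝ) - δ) ((p : ℝ) + δ)).indicator (fun _ => (1 : ℝ)) (u (i + 1)) -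
          (Icc ((p : ℝ) - δ) ((p : ℝ) + δ)).indicator (fun _ => (1 : ℝ)) (u i)| := by
        apply Finset.sum_le_sum
        intro i _
        unfold comb
        rw [← Finset.sum_sub_distrib]
        exact Finset.abs_sum_le_sum_abs _ _
    _ = ∑ p ∈ P, ∑ i ∈ Finset.range n,
        |(Icc ((p : ℝ) - δ) ((p : ℝ) + δ)).indicator (fun _ => (1 : ℝ)) (u (i + 1)) -
          (Icc ((p : ℝ) - δ) ((p : ℝ) + δ)).indicator (fun _ => (1 : ℝ)) (u i)| :=
        Finset.sum_comm
    _ ≤ ∑ p ∈ P, (2 : ℝ) := by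
        apply Finset.sum_le_sum
        intro p _
        exact indicator_var (by linarith) hu n
    _ = 2 * P.card := by rw [Finset.sum_const, nsmul_eq_mul]; ring

/-! ### The configuration -/

/-- The configuration of `2 N` integers. -/
def pts (N : ℕ) : Finset ℤ :=
  (Finset.range N).image (fun i : ℕ => (i : ℤ)) ∪
    (Finset.range N).image (fun j : ℕ => (10 * N ^ 2 + j * N : ℤ))

lemma pts_card (N : ℕ) : (pts N).card ≤ 2 * N := by
  unfold pts
  calc _ ≤ ((Finset.range N).image (fun i : ℕ => (i : ℤ))).card +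
        ((Finset.range N).image (fun j : ℕ => (10 * N ^ 2 + j * N : ℤ))).card :=
        Finset.card_union_le _ _
    _ ≤ (Finset.range N).card + (Finset.range N).card :=
        add_le_add Finset.card_image_le Finset.card_image_le
    _ = 2 * N := by rw [Finset.card_range]; ring

lemma dist_pts {N : ℕ} (hN : 1 ≤ N) {p : ℤ} (hp : p ∈ pts N) {x : ℝ}
    (h1 : 5 * (N : ℝ) ^ 2 ≤ x) (h2 : x ≤ 11 / 2 * (N : ℝ) ^ 2) :
    4 * (N : ℝ) ^ 2 ≤ |x - p| ∧ |x - p| ≤ 6 * (N : ℝ) ^ 2 := by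
  have hNr : (1 : ℝ) ≤ N := by exact_mod_cast hN
  have hNN : (N : ℝ) ≤ (N : ℝ) ^ 2 := by nlinarith
  unfold pts at hp
  rw [Finset.mem_union, Finset.mem_image, Finset.mem_image] at hp
  rcases hp with ⟨i, hi, rfl⟩ | ⟨j, hj, rfl⟩
  · rw [Finset.mem_range] at hi
    have hi' : (i : ℝ) ≤ N := by exact_mod_cast hi.le
    have hi0 : (0 : ℝ) ≤ i := Nat.cast_nonneg i
    push_cast
    rw [abs_of_nonneg (by linarith)]
    constructor <;> linarith
  · rw [Finset.mem_range] at hj
    have hj' : (j : ℝ) + 1 ≤ N := by exact_mod_cast hj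
    have hj0 : (0 : ℝ) ≤ j := Nat.cast_nonneg j
    push_cast
    have h3 : (j : ℝ) * N ≤ (N : ℝ) ^ 2 := by nlinarith
    have h4 : (0 : ℝ) ≤ (j : ℝ) * N := by positivity
    rw [abs_sub_comm, abs_of_nonneg (by linarith)]
    constructor <;> linarith

/-- Value at the centres. -/
lemma centre_value {n : ℕ} (hn : 1 ≤ n) {k : ℕ} (hk : k < (n ^ 2) ^ 2) :
    3 / 4 / (n : ℝ) ≤ maxConv ker (comb (pts (n ^ 2)) (1 / (n : ℝ) ^ 4))
      (5 * (n : ℝ) ^ 4 + k / 2) := by
  set N : ℕ := n ^ 2 with hN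
  have hNpos : 0 < N := by positivity
  have hnr : (1 : ℝ) ≤ n := by exact_mod_cast hn
  have hn0 : (0 : ℝ) < n := by linarith
  have hNr : (N : ℝ) = (n : ℝ) ^ 2 := by rw [hN]; push_cast; ring
  set i : ℕ := k % N with hi
  set j : ℕ := k / N with hj
  have hiN : i < N := Nat.mod_lt _ hNpos
  have hjN : j < N := by
    rw [hj, Nat.div_lt_iff_lt_mul hNpos]
    calc k < N ^ 2 := hk
      _ = N * N := by ring
  have hkij : k = j * N + i := by rw [hi, hj]; exact (Nat.div_add_mod' k N).symm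
  set a : ℤ := (i : ℤ) with ha
  set b : ℤ := (10 * N ^ 2 + j * N : ℤ) with hb
  have haP : a ∈ pts N := by
    unfold pts
    rw [Finset.mem_union, Finset.mem_image]
    exact Or.inl ⟨i, Finset.mem_range.mpr hiN, rfl⟩
  have hbP : b ∈ pts N := by
    unfold pts
    rw [Finset.mem_union, Finset.mem_image, Finset.mem_image]
    exact Or.inr ⟨j, Finset.mem_range.mpr hjN, rfl⟩
  have har : (a : ℝ) = i := by rw [ha]; push_cast; rfl
  have hbr : (b : ℝ) = 10 * (n : ℝ) ^ 4 + j * (n : ℝ) ^ 2 := by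
    rw [hb]; push_cast; rw [hNr]; ring
  have hir : (i : ℝ) + 1 ≤ (n : ℝ) ^ 2 := by rw [← hNr]; exact_mod_cast hiN
  have hi0 : (0 : ℝ) ≤ i := Nat.cast_nonneg i
  have hjr : (j : ℝ) + 1 ≤ (n : ℝ) ^ 2 := by rw [← hNr]; exact_mod_cast hjN
  have hj0 : (0 : ℝ) ≤ j := Nat.cast_nonneg j
  have hn2 : (1 : ℝ) ≤ (n : ℝ) ^ 2 := by nlinarith
  have hn4 : (n : ℝ) ^ 4 = (n : ℝ) ^ 2 * (n : ℝ) ^ 2 := by ring
  have hn24 : (n : ℝ) ^ 2 ≤ (n : ℝ) ^ 4 := by rw [hn4]; nlinarith
  have hjn : (j : ℝ) * (n : ℝ) ^ 2 ≤ (n : ℝ) ^ 4 := by rw [hn4]; nlinarith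
  have hjn0 : (0 : ℝ) ≤ (j : ℝ) * (n : ℝ) ^ 2 := by positivity
  have hdiff1 : 9 * (n : ℝ) ^ 4 ≤ (b : ℝ) - a := by rw [har, hbr]; linarith
  have hdiff2 : (b : ℝ) - a ≤ 11 * (n : ℝ) ^ 4 := by rw [har, hbr]; linarith
  have hn4pos : 0 < (n : ℝ) ^ 4 := by positivity
  have hn4one : (1 : ℝ) ≤ (n : ℝ) ^ 4 := le_trans hn2 hn24
  have hab : a < b := by
    have : (a : ℝ) < b := by linarith
    exact_mod_cast this
  have hδ : 0 < 1 / (n : ℝ) ^ 4 := by positivity
  have hδ1 : 1 / (n : ℝ) ^ 4 ≤ 1 := by rw [div_le_one hn4pos]; exact hn4one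
  have hx : 2 * (5 * (n : ℝ) ^ 4 + (k : ℝ) / 2) = a + b := by
    rw [har, hbr, hkij]
    push_cast
    rw [hNr]
    ring
  have hlb := lower_bound hδ (pts N) haP hbP hab hx (by linarith)
  refine le_trans ?_ hlb
  have hbase : 1 / (n : ℝ) ^ 4 / (((b : ℝ) - a) / 2) ≥ (3 / 4 / (n : ℝ)) ^ 8 := by
    have h1 : (3 / 4 / (n : ℝ)) ^ 8 = (3 / 4) ^ 8 / ((n : ℝ) ^ 4 * (n : ℝ) ^ 4) := by
      rw [div_pow]; ring
    rw [h1, ge_iff_le, div_div]
    rw [div_le_div_iff₀ (by positivity) (by nlinarith)]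
    have h2 : ((b : ℝ) - a) / 2 ≤ 6 * (n : ℝ) ^ 4 := by linarith
    have h3 : (3 / 4 : ℝ) ^ 8 ≤ 1 / 6 := by norm_num
    have h4 : (n : ℝ) ^ 4 * (((b : ℝ) - a) / 2) ≤ (n : ℝ) ^ 4 * (6 * (n : ℝ) ^ 4) :=
      mul_le_mul_of_nonneg_left h2 hn4pos.le
    have h5 : 0 ≤ (n : ℝ) ^ 4 * (((b : ℝ) - a) / 2) := by
      have : 0 ≤ ((b : ℝ) - a) / 2 := by linarith
      positivity
    calc (3 / 4 : ℝ) ^ 8 * ((n : ℝ) ^ 4 * (((b : ℝ) - a) / 2))
        ≤ 1 / 6 * ((n : ℝ) ^ 4 * (((b : ℝ) - a) / 2)) := mul_le_mul_of_nonneg_right h3 h5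
      _ ≤ 1 / 6 * ((n : ℝ) ^ 4 * (6 * (n : ℝ) ^ 4)) := mul_le_mul_of_nonneg_left h4 (by norm_num)
      _ = 1 * ((n : ℝ) ^ 4 * (n : ℝ) ^ 4) := by ring
  have hroot : ((3 / 4 / (n : ℝ)) ^ 8) ^ (1 / 8 : ℝ) = 3 / 4 / (n : ℝ) := by
    rw [← Real.rpow_natCast, ← Real.rpow_mul (by positivity)]
    norm_num
  rw [← hroot]
  exact Real.rpow_le_rpow (by positivity) hbase (by norm_num)

/-- Value at the off-centres. -/
lemma off_value {n : ℕ} (hn : 4 ≤ n) {k : ℕ} (hk : k < (n ^ 2) ^ 2) :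
    maxConv ker (comb (pts (n ^ 2)) (1 / (n : ℝ) ^ 4))
      (5 * (n : ℝ) ^ 4 + k / 2 + 1 / 4) ≤ 1 / 2 / (n : ℝ) + 28 / (n : ℝ) ^ 2 := by
  set N : ℕ := n ^ 2 with hN
  have hnr : (4 : ℝ) ≤ n := by exact_mod_cast hn
  have hn0 : (0 : ℝ) < n := by linarith
  have hNr : (N : ℝ) = (n : ℝ) ^ 2 := by rw [hN]; push_cast; ring
  have hn2 : (16 : ℝ) ≤ (n : ℝ) ^ 2 := by nlinarith
  have hn4 : (n : ℝ) ^ 4 = (n : ℝ) ^ 2 * (n : ℝ) ^ 2 := by ring
  have hn4b : (256 : ℝ) ≤ (n : ℝ) ^ 4 := by rw [hn4]; nlinarith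
  have hN2 : (N : ℝ) ^ 2 = (n : ℝ) ^ 4 := by rw [hNr]; ring
  have hkr : (k : ℝ) + 1 ≤ (n : ℝ) ^ 4 := by
    rw [← hN2]; exact_mod_cast hk
  have hk0 : (0 : ℝ) ≤ k := Nat.cast_nonneg k
  have hδ : 0 < 1 / (n : ℝ) ^ 4 := by positivity
  have hδ1 : 1 / (n : ℝ) ^ 4 ≤ 1 / 100 :=
    one_div_le_one_div_of_le (by norm_num) (by linarith)
  have hdist : ∀ p ∈ pts N, 4 * (n : ℝ) ^ 4 ≤ |5 * (n : ℝ) ^ 4 + k / 2 + 1 / 4 - p| ∧
      |5 * (n : ℝ) ^ 4 + k / 2 + 1 / 4 - p| ≤ 6 * (n : ℝ) ^ 4 := by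
    intro p hp
    have := dist_pts (N := N) (by rw [hN]; exact Nat.one_le_pow _ _ (by omega)) hp
      (x := 5 * (n : ℝ) ^ 4 + k / 2 + 1 / 4) (by rw [hN2]; linarith) (by rw [hN2]; linarith)
    rwa [hN2] at this
  have hub := upper_bound hδ hδ1 (S := (n : ℝ) ^ 4) (by linarith) (pts N)
    (x := 5 * (n : ℝ) ^ 4 + k / 2 + 1 / 4) (m := 10 * (n : ℤ) ^ 4 + k) (by push_cast; ring)
    (fun p hp => (hdist p hp).1) (fun p hp => (hdist p hp).2)
  refine le_trans hub ?_
  have e1 : (1 / (n : ℝ) ^ 4 / (n : ℝ) ^ 4) ^ (1 / 8 : ℝ) = 1 / n := by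
    have : 1 / (n : ℝ) ^ 4 / (n : ℝ) ^ 4 = (1 / (n : ℝ)) ^ 8 := by
      field_simp
    rw [this, ← Real.rpow_natCast, ← Real.rpow_mul (by positivity)]
    norm_num
  rw [e1]
  have hcard : ((pts N).card : ℝ) ≤ 2 * (n : ℝ) ^ 2 := by
    rw [← hNr]
    exact_mod_cast pts_card N
  have e2 : (2 * ((pts N).card : ℝ)) * (7 * (1 / (n : ℝ) ^ 4)) ≤ 28 / (n : ℝ) ^ 2 := by
    calc (2 * ((pts N).card : ℝ)) * (7 * (1 / (n : ℝ) ^ 4))
        ≤ (2 * (2 * (n : ℝ) ^ 2)) * (7 * (1 / (n : ℝ) ^ 4)) := by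
          apply mul_le_mul_of_nonneg_right _ (by positivity)
          linarith
      _ = 28 / (n : ℝ) ^ 2 := by
          field_simp
          ring
  have e3 : 1 / (n : ℝ) / 2 = 1 / 2 / (n : ℝ) := by ring
  linarith

lemma gap {n : ℕ} (hn : 224 ≤ n) {k l : ℕ} (hk : k < (n ^ 2) ^ 2) (hl : l < (n ^ 2) ^ 2) :
    1 / 8 / (n : ℝ) ≤ maxConv ker (comb (pts (n ^ 2)) (1 / (n : ℝ) ^ 4))
      (5 * (n : ℝ) ^ 4 + k / 2) - maxConv ker (comb (pts (n ^ 2)) (1 / (n : ℝ) ^ 4))
      (5 * (n : ℝ) ^ 4 + l / 2 + 1 / 4) := by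
  have h1 := centre_value (n := n) (by omega) hk
  have h2 := off_value (n := n) (by omega) hl
  have hnr : (224 : ℝ) ≤ n := by exact_mod_cast hn
  have hn0 : (0 : ℝ) < n := by linarith
  have h3 : 28 / (n : ℝ) ^ 2 ≤ 1 / 8 / (n : ℝ) := by
    rw [div_div, div_le_div_iff₀ (by positivity) (by positivity)]
    nlinarith
  have h4 : 3 / 4 / (n : ℝ) - 1 / 2 / (n : ℝ) - 1 / 8 / (n : ℝ) = 1 / 8 / (n : ℝ) := by
    field_simp; norm_num
  linarith

lemma var_lower {n : ℕ} (hn : 224 ≤ n) :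
    ENNReal.ofReal ((n : ℝ) ^ 3 / 8) ≤
      eVariationOn (maxConv ker (comb (pts (n ^ 2)) (1 / (n : ℝ) ^ 4))) univ := by
  set g := maxConv ker (comb (pts (n ^ 2)) (1 / (n : ℝ) ^ 4)) with hg
  have hnr : (224 : ℝ) ≤ n := by exact_mod_cast hn
  have hn0 : (0 : ℝ) < n := by linarith
  set m : ℕ := (n ^ 2) ^ 2 with hm
  have hm1 : 1 ≤ m := by rw [hm]; exact Nat.one_le_pow _ _ (by positivity)
  set u : ℕ → ℝ := fun i => 5 * (n : ℝ) ^ 4 + (i : ℝ) / 4 with hu
  have hmono : Monotone u := by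
    intro i j hij
    rw [hu]
    have : (i : ℝ) ≤ j := by exact_mod_cast hij
    show 5 * (n : ℝ) ^ 4 + (i : ℝ) / 4 ≤ 5 * (n : ℝ) ^ 4 + (j : ℝ) / 4
    linarith
  have hsum := eVariationOn.sum_le (f := g) (s := univ) (n := m) hmono (fun i => mem_univ _)
  refine le_trans ?_ hsum
  have hterm : ∀ i ∈ Finset.range m, ENNReal.ofReal (1 / 8 / (n : ℝ)) ≤
      edist (g (u (i + 1))) (g (u i)) := by
    intro i hi
    rw [Finset.mem_range] at hi
    rw [edist_dist, Real.dist_eq]
    apply ENNReal.ofReal_le_ofReal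
    rcases Nat.even_or_odd' i with ⟨k, hk | hk⟩
    · have e1 : u i = 5 * (n : ℝ) ^ 4 + k / 2 := by
        show 5 * (n : ℝ) ^ 4 + (i : ℝ) / 4 = _
        rw [hk]; push_cast; ring
      have e2 : u (i + 1) = 5 * (n : ℝ) ^ 4 + k / 2 + 1 / 4 := by
        show 5 * (n : ℝ) ^ 4 + ((i + 1 : ℕ) : ℝ) / 4 = _
        rw [hk]; push_cast; ring
      rw [e1, e2, abs_sub_comm]
      refine le_trans (gap hn (k := k) (l := k) (by omega) (by omega)) (le_abs_self _)
    · have e1 : u i = 5 * (n : ℝ) ^ 4 + k / 2 + 1 / 4 := by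
        show 5 * (n : ℝ) ^ 4 + (i : ℝ) / 4 = _
        rw [hk]; push_cast; ring
      have e2 : u (i + 1) = 5 * (n : ℝ) ^ 4 + ((k + 1 : ℕ) : ℝ) / 2 := by
        show 5 * (n : ℝ) ^ 4 + ((i + 1 : ℕ) : ℝ) / 4 = _
        rw [hk]; push_cast; ring
      rw [e1, e2]
      refine le_trans (gap hn (k := k + 1) (l := k) (by omega) (by omega)) (le_abs_self _)
  calc ENNReal.ofReal ((n : ℝ) ^ 3 / 8)
      = (m : ENNReal) * ENNReal.ofReal (1 / 8 / (n : ℝ)) := by
        have : (m : ENNReal) = ENNReal.ofReal ((m : ℝ)) := (ENNReal.ofReal_natCast m).symm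
        rw [this, ← ENNReal.ofReal_mul (by positivity)]
        congr 1
        rw [hm]
        push_cast
        field_simp
    _ = ∑ i ∈ Finset.range m, ENNReal.ofReal (1 / 8 / (n : ℝ)) := by
        rw [Finset.sum_const, Finset.card_range, nsmul_eq_mul]
    _ ≤ _ := Finset.sum_le_sum hterm

lemma comb_var_ne_zero {n : ℕ} (hn : 1 ≤ n) :
    eVariationOn (comb (pts (n ^ 2)) (1 / (n : ℝ) ^ 4)) univ ≠ 0 := by
  set δ : ℝ := 1 / (n : ℝ) ^ 4 with hδ
  have hnr : (1 : ℝ) ≤ n := by exact_mod_cast hn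
  have hδ0 : 0 < δ := by rw [hδ]; positivity
  have hδ1 : δ ≤ 1 := by
    rw [hδ, div_le_one (by positivity)]
    exact one_le_pow₀ hnr
  have h1 : comb (pts (n ^ 2)) δ (-2) = 0 := by
    unfold comb
    apply Finset.sum_eq_zero
    intro p hp
    apply indicator_of_notMem
    rintro ⟨h2, _⟩
    have h3 : (0 : ℝ) ≤ p := by
      unfold pts at hp
      rw [Finset.mem_union, Finset.mem_image, Finset.mem_image] at hp
      rcases hp with ⟨i, _, rfl⟩ | ⟨j, _, rfl⟩
      · positivity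
      · positivity
    linarith
  have h2 : 1 ≤ comb (pts (n ^ 2)) δ 0 := by
    unfold comb
    have h0 : (0 : ℤ) ∈ pts (n ^ 2) := by
      unfold pts
      rw [Finset.mem_union, Finset.mem_image]
      exact Or.inl ⟨0, Finset.mem_range.mpr (by positivity), rfl⟩
    have h3 : (Icc (((0 : ℤ) : ℝ) - δ) (((0 : ℤ) : ℝ) + δ)).indicator (fun _ => (1 : ℝ)) 0 = 1 := by
      apply indicator_of_mem
      push_cast
      constructor <;> linarith
    refine le_trans (le_of_eq h3.symm) ?_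
    exact Finset.single_le_sum (f := fun p : ℤ =>
      (Icc ((p : ℝ) - δ) ((p : ℝ) + δ)).indicator (fun _ => (1 : ℝ)) 0)
      (fun p _ => indicator_nonneg (fun _ _ => zero_le_one) _) h0
  intro h
  have h3 := eVariationOn.edist_le (comb (pts (n ^ 2)) δ) (mem_univ (0 : ℝ)) (mem_univ (-2 : ℝ))
  rw [h, nonpos_iff_eq_zero, edist_eq_zero] at h3
  rw [h1] at h3
  linarith

/-- **Negative answer to Q1 of MP_0067de_an.**  There is a kernel `φ` (nonnegative, integrable,
with integral one; moreover even and supported in `[-2, 2]`) such that the total variation of the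
maximal function of convolution type attached to `φ` is not controlled by any constant times the
total variation of the function. -/
theorem result :
    ∃ φ : ℝ → ℝ, (∀ y, 0 ≤ φ y) ∧ Integrable φ ∧ ∫ y, φ y = 1 ∧
      (∀ y, φ (-y) = φ y) ∧ (∀ y, 2 < |y| → φ y = 0) ∧
      ∀ C : NNReal, ∃ f : ℝ → ℝ, eVariationOn f univ ≠ 0 ∧ eVariationOn f univ ≠ ⊤ ∧
        C * eVariationOn f univ < eVariationOn (maxConv φ f) univ := by
  refine ⟨ker, ker_nonneg, integrable_ker, integral_ker, ker_even, fun y => ker_support, ?_⟩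
  intro C
  obtain ⟨n, hn⟩ : ∃ n : ℕ, (32 * (C : ℝ) + 224) < n := exists_nat_gt _
  have hC0 : (0 : ℝ) ≤ C := C.2
  have hn224 : 224 ≤ n := by
    have : (224 : ℝ) < n := by linarith
    exact_mod_cast this.le
  have hn0 : (0 : ℝ) < n := by linarith
  have hδ : 0 < 1 / (n : ℝ) ^ 4 := by positivity
  have hup := comb_var (pts (n ^ 2)) hδ
  refine ⟨comb (pts (n ^ 2)) (1 / (n : ℝ) ^ 4), comb_var_ne_zero (by omega),
    ne_top_of_le_ne_top ENNReal.ofReal_ne_top hup, ?_⟩
  have hcard : ((pts (n ^ 2)).card : ℝ) ≤ 2 * (n : ℝ) ^ 2 := by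
    have := pts_card (n ^ 2)
    exact_mod_cast this
  calc (C : ENNReal) * eVariationOn (comb (pts (n ^ 2)) (1 / (n : ℝ) ^ 4)) univ
      ≤ (C : ENNReal) * ENNReal.ofReal (2 * (pts (n ^ 2)).card) := by gcongr
    _ ≤ (C : ENNReal) * ENNReal.ofReal (4 * (n : ℝ) ^ 2) :=
        mul_le_mul_right (ENNReal.ofReal_le_ofReal (by linarith)) _
    _ = ENNReal.ofReal (C * (4 * (n : ℝ) ^ 2)) := by
        rw [ENNReal.ofReal_mul hC0]
        congr 1
        exact (ENNReal.ofReal_coe_nnreal).symm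
    _ < ENNReal.ofReal ((n : ℝ) ^ 3 / 8) := by
        rw [ENNReal.ofReal_lt_ofReal_iff (by positivity)]
        have : (C : ℝ) < n / 32 := by linarith
        calc (C : ℝ) * (4 * (n : ℝ) ^ 2) < n / 32 * (4 * (n : ℝ) ^ 2) :=
              mul_lt_mul_of_pos_right this (by positivity)
          _ = (n : ℝ) ^ 3 / 8 := by ring
    _ ≤ _ := var_lower hn224

end Pool.Agent.Results.MP_0067de_an.SingularKernel
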